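import Pool.Agent.P8H70.TU.Stm

/-!
# Project TU (helper70), package LIP (helper45)
-/

set_option autoImplicit false

namespace Pool.Agent.P8H45.TU

open Pool.Agent.P8H70.TU Complex ComplexConjugate
open Pool.Agent.P8H70.TR (tp phi trunc Lp Ip)

theorem phi_eq (z : ℂ) : phi z = ((min ‖z‖ 1 / ‖z‖ : ℝ) : ℂ) * z := by
  unfold phi
  push_cast
  ring

theorem coef_nonneg (z : ℂ) : 0 ≤ min ‖z‖ 1 / ‖z‖ :=
  div_nonneg (le_min (norm_nonneg z) zero_le_one) (norm_nonneg z)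

theorem coef_le (z : ℂ) : min ‖z‖ 1 / ‖z‖ ≤ 1 := by
  rcases (norm_nonneg z).eq_or_lt with h | h
  · rw [← h]; simp
  · rw [div_le_one h]
    exact min_le_left _ _

theorem coef_mul (z : ℂ) : min ‖z‖ 1 / ‖z‖ * ‖z‖ = min ‖z‖ 1 := by
  rcases (norm_nonneg z).eq_or_lt with h | h
  · rw [← h]; simp
  · exact div_mul_cancel₀ _ h.ne'

theorem norm_phi (z : ℂ) : ‖phi z‖ = min ‖z‖ 1 := by
  rw [phi_eq, norm_mul, Complex.norm_real, Real.norm_of_nonneg (coef_nonneg z), coef_mul]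

theorem sq_dist (z w : ℂ) : ‖z - w‖ ^ 2 = ‖z‖ ^ 2 + ‖w‖ ^ 2 - 2 * (z * conj w).re := by
  rw [Complex.sq_norm, Complex.sq_norm, Complex.sq_norm, Complex.normSq_sub]

theorem lip (z w : ℂ) : ‖phi z - phi w‖ ≤ ‖z - w‖ := by
  refine le_of_sq_le_sq ?_ (norm_nonneg _)
  obtain ⟨a, ha⟩ : ∃ a, a = min ‖z‖ 1 / ‖z‖ := ⟨_, rfl⟩
  obtain ⟨b, hb⟩ : ∃ b, b = min ‖w‖ 1 / ‖w‖ := ⟨_, rfl⟩
  have ha0 : 0 ≤ a := ha ▸ coef_nonneg z
  have hb0 : 0 ≤ b := hb ▸ coef_nonneg w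
  have ha1 : a ≤ 1 := ha ▸ coef_le z
  have hb1 : b ≤ 1 := hb ▸ coef_le w
  have hza : a * ‖z‖ = min ‖z‖ 1 := ha ▸ coef_mul z
  have hwb : b * ‖w‖ = min ‖w‖ 1 := hb ▸ coef_mul w
  have hq : (z * conj w).re ≤ ‖z‖ * ‖w‖ := by
    have := Complex.re_le_norm (z * conj w)
    rwa [norm_mul, Complex.norm_conj] at this
  have e1 : (phi z * conj (phi w)).re = a * b * (z * conj w).re := by
    rw [phi_eq z, phi_eq w, ← ha, ← hb, map_mul, Complex.conj_ofReal]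
    have : (a : ℂ) * z * ((b : ℂ) * conj w) = ((a * b : ℝ) : ℂ) * (z * conj w) := by
      push_cast; ring
    rw [this, Complex.re_ofReal_mul]
  rw [sq_dist, sq_dist, e1, norm_phi, norm_phi]
  have h1 : (min ‖z‖ 1 - min ‖w‖ 1) ^ 2 ≤ (‖z‖ - ‖w‖) ^ 2 := by
    rw [sq_le_sq]
    refine (abs_min_sub_min_le_max _ _ _ _).trans (max_le le_rfl ?_)
    rw [sub_self, abs_zero]
    exact abs_nonneg _
  have h2 : a * b * (‖z‖ * ‖w‖ - (z * conj w).re) ≤ ‖z‖ * ‖w‖ - (z * conj w).re := by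
    have h3 : a * b ≤ 1 := mul_le_one₀ ha1 hb0 hb1
    have h4 : 0 ≤ ‖z‖ * ‖w‖ - (z * conj w).re := sub_nonneg.2 hq
    nlinarith
  have h5 : min ‖z‖ 1 * min ‖w‖ 1 = a * b * (‖z‖ * ‖w‖) := by
    rw [← hza, ← hwb]; ring
  nlinarith

theorem lip_proof : S_LIP := by
  refine ⟨lip, fun z => ?_, fun z => ?_, fun z hz => ?_⟩
  · rw [phi_eq, phi_eq, norm_neg, mul_neg]
  · rw [norm_phi]
    exact min_le_right _ _
  · rcases eq_or_ne z 0 with h | h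
    · rw [h, phi_eq, mul_zero]
    · have h1 : ‖z‖ ≠ 0 := norm_ne_zero_iff.2 h
      rw [phi_eq, min_eq_left hz, div_self h1, Complex.ofReal_one, one_mul]

end Pool.Agent.P8H45.TU
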